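import Pool.Agent.H72N.Rich
import Pool.Agent.H62P.Steps
import Pool.Agent.TFG.Hub
import Pool.Agent.H6T.TwoP

/-! Components of the complement of a family of maximum coverage satisfy (AM). -/

set_option autoImplicit false

namespace Pool.Agent.H72N

open List Pool.Agent.TF82 Pool.Agent.TFC Pool.Agent.TFB Pool.Agent.EG31 Pool.Agent.H18C
  Pool.Agent.H62P

universe u

set_option linter.unusedSectionVars false
set_option linter.unusedVariables false

variable {V : Type u} [DecidableEq V]

theorem amw_comp [Fintype V] {G : SimpleGraph V} [DecidableRel G.Adj] {W : Finset V}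
    (hC : CW G Finset.univ W) {j : ℕ} {L : List (List V)} (hM : IsMax G j L) {y : V}
    (hy : y ∈ unc L) : AMW G (comp G L y) (W ∩ comp G L y) (att G L y) := by
  intro J hJ hind v hv
  have hIc : ∀ x ∈ J, x ∈ comp G L y ∧ x ∉ W := by
    intro x hx
    have h1 := Finset.mem_sdiff.1 (hJ hx)
    exact ⟨h1.1, fun hw => h1.2 (Finset.mem_inter.2 ⟨hw, h1.1⟩)⟩
  have h1 := att_main_W hC hM hy J
    (Finset.disjoint_left.2 (fun x hx => (hIc x hx).2)) hind
    (fun x hx => (mem_comp.1 (hIc x hx).1).2) hv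
  rw [← dU_comp (hIc v hv).1] at h1
  have h2 : (W ∩ comp G L y).card ≤ (W ∩ unc L).card := by
    refine Finset.card_le_card ?_
    intro x hx
    have := Finset.mem_inter.1 hx
    exact Finset.mem_inter.2 ⟨this.1, (mem_comp.1 this.2).1⟩
  omega

theorem link_iff [Fintype V] {G : SimpleGraph V} {F : List (List V)} {y : V} {n : ℕ} {s t : V} :
    TFG.Link G F y n s t ↔ LinkZ G (comp G F y) n s t := Iff.rfl

theorem LinkZ.lk {G : SimpleGraph V} {Z : Finset V} {D : List V} {n : ℕ} {u u' : V}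
    (h : LinkZ G Z n u u') (hZ : ∀ z ∈ Z, z ∉ D) : H6T.Lk G D n u u' := by
  obtain ⟨Q, x, x', h1, h2, h3, h4, h5, h6⟩ := h
  exact ⟨Q, x, x', h1, h2, fun z hz => hZ z (h3 z hz), h4, h5, h6⟩

end Pool.Agent.H72N
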