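import Pool.Agent.H18C.Base

/-! The link lemma with the surplus condition only at vertices which are no cut vertices. -/

set_option autoImplicit false

namespace Pool.Agent.H72N

open List Pool.Agent.TF82 Pool.Agent.TFC Pool.Agent.EG31 Pool.Agent.H18C

universe u

set_option linter.unusedSectionVars false
set_option linter.unusedVariables false

variable {V : Type u} [DecidableEq V]

/-- surplus condition at the vertices which are no cut vertices -/
def CWg (G : SimpleGraph V) [DecidableRel G.Adj] (H S : Finset V) (b : ℕ) : Prop :=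
  ∀ I ⊆ H \ S, G.IsIndepSet (I : Set V) → ∀ v ∈ I, Conn1 G (H.erase v) →
    I.card + S.card + b + 1 ≤ dU G H v

theorem cwg_of_cwb {G : SimpleGraph V} [DecidableRel G.Adj] {H S : Finset V} {b : ℕ}
    (h : CWb G H S b) : CWg G H S b := fun I hI hind v hv _ => h I hI hind v hv

theorem CWg.mono {G : SimpleGraph V} [DecidableRel G.Adj] {H S : Finset V} {b b' : ℕ}
    (h : CWg G H S b) (hb : b' ≤ b) : CWg G H S b' := by
  intro I hI hind v hv hc
  have := h I hI hind v hv hc
  omega

theorem CWg.cwb_of_conn2 {G : SimpleGraph V} [DecidableRel G.Adj] {H S : Finset V} {b : ℕ}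
    (h : CWg G H S b) (h2 : Conn2 G H) : CWb G H S b := by
  intro I hI hind v hv
  exact h I hI hind v hv (h2 v (Finset.mem_sdiff.1 (hI hv)).1)

theorem cwg_part {G : SimpleGraph V} [DecidableRel G.Adj] {H C : Finset V} {z : V}
    (h : Part G H z C) (hH : Conn1 G H) {S : Finset V} {b : ℕ}
    (hS : S ⊆ H) (hC : CWg G H S b) {u₀ : V} (hu : u₀ ∈ H) (hu' : u₀ ∉ insert z C) :
    CWg G (insert z C) (insert z (S ∩ C)) b := by
  intro I hI hind v hv hvc
  have hIC : ∀ y ∈ I, y ∈ C ∧ y ∉ S := by
    intro y hy
    have := hI hy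
    rw [Finset.mem_sdiff] at this
    have hyz : y ≠ z := fun he => this.2 (he ▸ Finset.mem_insert_self _ _)
    have hyC : y ∈ C := by
      rcases Finset.mem_insert.1 this.1 with h1 | h1
      · exact absurd h1 hyz
      · exact h1
    exact ⟨hyC, fun hyS => this.2 (Finset.mem_insert_of_mem (Finset.mem_inter.2 ⟨hyS, hyC⟩))⟩
  have hnc : Conn1 G (H.erase v) := (h.good_of hH (S := S) ⟨Finset.mem_insert_of_mem (hIC v hv).1,
    (Finset.mem_sdiff.1 (hI hv)).2, hvc⟩ (hIC v hv).1).nc
  rw [h.dU_eq (hIC v hv).1]
  have huC : u₀ ∉ C := fun he => hu' (Finset.mem_insert_of_mem he)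
  by_cases huS : u₀ ∈ S
  · have h1 := hC I (fun y hy => Finset.mem_sdiff.2 ⟨h.subH (hIC y hy).1, (hIC y hy).2⟩) hind v hv hnc
    have h2 : (insert z (S ∩ C)).card ≤ S.card := by
      refine (Finset.card_insert_le _ _).trans ?_
      have : (S ∩ C).card < S.card := by
        apply Finset.card_lt_card
        refine ⟨Finset.inter_subset_left, fun hcon => ?_⟩
        exact huC (Finset.mem_inter.1 (hcon huS)).2
      omega
    omega
  · have huI : u₀ ∉ I := fun he => huC (hIC _ he).1
    have hnadj : ∀ y ∈ I, ¬ G.Adj y u₀ := by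
      intro y hy hadj
      rcases h.cl y (hIC y hy).1 u₀ hu hadj with h3 | h3
      · exact huC h3
      · exact hu' (h3 ▸ Finset.mem_insert_self _ _)
    have h1 := hC (insert u₀ I) (by
      intro y hy
      rcases Finset.mem_insert.1 hy with rfl | hy
      · exact Finset.mem_sdiff.2 ⟨hu, huS⟩
      · exact Finset.mem_sdiff.2 ⟨h.subH (hIC y hy).1, (hIC y hy).2⟩) (by
      rw [Finset.coe_insert]
      intro a ha c hc hac hadj
      rcases ha with rfl | ha
      · rcases hc with rfl | hc
        · exact hac rfl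
        · exact hnadj c hc hadj.symm
      · rcases hc with rfl | hc
        · exact hnadj a ha hadj
        · exact hind ha hc hac hadj) v (Finset.mem_insert_of_mem hv) hnc
    rw [Finset.card_insert_of_notMem huI] at h1
    have h2 : (insert z (S ∩ C)).card ≤ S.card + 1 :=
      (Finset.card_insert_le _ _).trans (Nat.succ_le_succ (Finset.card_le_card
        Finset.inter_subset_left))
    omega


theorem near_linkg_aux {G : SimpleGraph V} [DecidableRel G.Adj] : ∀ (n : ℕ)
    (H S : Finset V) (b : ℕ) (x x' : V), H.card ≤ n → Conn1 G H → S ⊆ H → CWg G H S b →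
    x ∈ H → x' ∈ H → ¬ Near G H S x x' →
    ∃ Q, Seg G Q x x' ∧ Q.Nodup ∧ (∀ z ∈ Q, z ∈ H) ∧ b + 3 ≤ Q.length := by
  intro n
  induction n with
  | zero =>
    intro H S b x x' hn hH hS hC hx hx' hnear
    have : H = ∅ := Finset.card_eq_zero.1 (Nat.le_zero.1 hn)
    rw [this] at hx
    simp at hx
  | succ n ih =>
    intro H S b x x' hn hH hS hC hx hx' hnear
    have hne : x ≠ x' := by
      rintro rfl
      exact hnear (near_refl x)
    unfold Near at hnear
    push Not at hnear
    obtain ⟨-, v, hv, hsep⟩ := hnear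
    by_cases h2 : Conn2 G H
    · exact base2 H S b x x' v hH h2 hS (hC.cwb_of_conn2 h2) hv.mem hv.nS hx hx' hne
    unfold Conn2 at h2
    push Not at h2
    obtain ⟨z, hz, hzc⟩ := h2
    have hvz : v ≠ z := fun he => hzc (he ▸ hv.nc)
    obtain ⟨C, hvC, hP⟩ := exists_part (G := G) hz (Finset.mem_erase.2 ⟨hvz, hv.mem⟩)
    -- a vertex outside
    have hout : ∃ u₀ ∈ H, u₀ ∉ insert z C := by
      by_contra hcon
      push Not at hcon
      apply hzc
      intro a ha b hb
      have h1 : H.erase z = C := by
        apply Finset.Subset.antisymm _ hP.sub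
        intro y hy
        rw [Finset.mem_erase] at hy
        rcases Finset.mem_insert.1 (hcon y hy.2) with h3 | h3
        · exact absurd h3 hy.1
        · exact h3
      rw [h1] at ha hb ⊢
      exact hP.conn a ha b hb
    obtain ⟨u₀, hu, hu'⟩ := hout
    have hcard : (insert z C).card ≤ n := by
      have : (insert z C).card < H.card := Finset.card_lt_card ⟨hP.insH, fun hcon => hu' (hcon hu)⟩
      omega
    have hC' := cwg_part hP hH hS hC hu hu'
    have hS' : insert z (S ∩ C) ⊆ insert z C := by
      intro y hy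
      rcases Finset.mem_insert.1 hy with rfl | hy
      · exact Finset.mem_insert_self _ _
      · exact Finset.mem_insert_of_mem (Finset.mem_inter.1 hy).2
    have hgood := hP.good hv hvC
    -- one end in `C`, the other outside
    have mixed : ∀ a a' : V, a ∈ insert z C → a' ∈ H → a' ∉ insert z C →
        (∀ w ∈ H, w ≠ v → ¬ (SepV G H w v a ∧ SepV G H w v a')) →
        ∃ Q, Seg G Q a a' ∧ Q.Nodup ∧ (∀ z ∈ Q, z ∈ H) ∧ b + 3 ≤ Q.length := by
      intro a a' ha ha' ha'C hs
      have haz : a ≠ z := by
        rintro rfl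
        exact hs a hz (fun he => hvz he.symm) ⟨Or.inl rfl, hP.sep_out hvC
          (fun he => ha'C (Finset.mem_insert_of_mem he))⟩
      have haC : a ∈ C := by
        rcases Finset.mem_insert.1 ha with h1 | h1
        · exact absurd h1 haz
        · exact h1
      obtain ⟨Q, q1, q2, q3, q4⟩ := ih (insert z C) (insert z (S ∩ C)) b a z hcard
        (hP.conn_ins hH) hS' hC' ha (Finset.mem_insert_self _ _) (by
          intro hnear
          obtain ⟨w, hw, hwv, s1, s2⟩ := hnear haz v hgood
          exact hs w (hP.insH hw) hwv ⟨hP.sep_of hvC hwv ha s1, hP.sep_through hvC hwv ha'C s2⟩)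
      obtain ⟨R, r1, r2, r3, r4⟩ := hP.out_reach hH ha' (fun he => ha'C (Finset.mem_insert_of_mem he))
      rcases R with _ | ⟨r, R⟩
      · have := r1.hd
        simp at this
      have hrz : r = z := by
        have := r1.hd
        simpa using this
      subst hrz
      rcases R with _ | ⟨r', R⟩
      · have := r1.lt
        simp at this
        exact absurd (this ▸ Finset.mem_insert_self _ _) ha'C
      have hch := r1.ch
      rw [List.isChain_cons_cons] at hch
      have hR' : Seg G (r' :: R) r' a' := ⟨hch.2, rfl, by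
        have := r1.lt
        rwa [List.getLast?_cons_cons] at this⟩
      refine ⟨Q ++ (r' :: R), q1.append hR' hch.1, ?_, ?_, ?_⟩
      · rw [List.nodup_append]
        refine ⟨q2, (List.nodup_cons.1 r2).2, ?_⟩
        rintro y hy y' hy' rfl
        rcases Finset.mem_insert.1 (q3 y hy) with h1 | h1
        · rw [h1] at hy'
          exact (List.nodup_cons.1 r2).1 hy'
        · exact r4 y (List.mem_cons_of_mem _ hy') h1
      · intro y hy
        rcases List.mem_append.1 hy with h1 | h1
        · exact hP.insH (q3 y h1)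
        · exact r3 y (List.mem_cons_of_mem _ h1)
      · rw [List.length_append]
        omega
    by_cases hxI : x ∈ insert z C
    · by_cases hx'I : x' ∈ insert z C
      · obtain ⟨Q, q1, q2, q3, q4⟩ := ih (insert z C) (insert z (S ∩ C)) b x x' hcard
          (hP.conn_ins hH) hS' hC' hxI hx'I (by
            intro hnear
            obtain ⟨w, hw, hwv, s1, s2⟩ := hnear hne v hgood
            exact hsep w (hP.insH hw) hwv (hP.sep_of hvC hwv hxI s1) (hP.sep_of hvC hwv hx'I s2))
        exact ⟨Q, q1, q2, fun y hy => hP.insH (q3 y hy), q4⟩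
      · exact mixed x x' hxI hx' hx'I (fun w hw hwv hs => hsep w hw hwv hs.1 hs.2)
    · by_cases hx'I : x' ∈ insert z C
      · obtain ⟨Q, q1, q2, q3, q4⟩ := mixed x' x hx'I hx hxI
          (fun w hw hwv hs => hsep w hw hwv hs.2 hs.1)
        exact ⟨Q.reverse, q1.rev, by simpa using q2, by simpa using q3, by simpa using q4⟩
      · exfalso
        exact hsep z hz (fun he => hvz he.symm)
          (hP.sep_out hvC (fun he => hxI (Finset.mem_insert_of_mem he)))
          (hP.sep_out hvC (fun he => hx'I (Finset.mem_insert_of_mem he)))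


/-- LINK with the surplus only at the good vertices -/
theorem near_linkg {G : SimpleGraph V} [DecidableRel G.Adj] {H S : Finset V} {b : ℕ} {x x' : V}
    (hH : Conn1 G H) (hS : S ⊆ H) (hC : CWg G H S b) (hx : x ∈ H) (hx' : x' ∈ H)
    (hn : ¬ Near G H S x x') :
    ∃ Q, Seg G Q x x' ∧ Q.Nodup ∧ (∀ z ∈ Q, z ∈ H) ∧ b + 3 ≤ Q.length :=
  near_linkg_aux H.card H S b x x' le_rfl hH hS hC hx hx' hn

end Pool.Agent.H72N
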