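import Pool.Agent.H72N.MainP
import Pool.Agent.H18C.CutFin
import Pool.Agent.H62P.TransP

/-! Q1 for every `k` and every order. -/

set_option autoImplicit false

namespace Pool.Agent.H72N

open List Pool.Agent.TF82 Pool.Agent.H62P

universe u

/-- at most `k` cycles cover the graph -/
theorem cov_full {V : Type u} [Fintype V] [DecidableEq V] (G : SimpleGraph V)
    [DecidableRel G.Adj] (k : ℕ)
    (hC : ∀ I : Finset V, G.IsIndepSet (I : Set V) → ∀ v ∈ I,
      I.card + 1 ≤ dU G Finset.univ v)
    (hσ : ∀ I : Finset V, G.IsIndepSet (I : Set V) → I.card = k + 1 →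
      Fintype.card V ≤ ∑ v ∈ I, dU G Finset.univ v) : Cov G k :=
  q1_of_pkg H18C.cutStepP H18C.sideStepP mainStepP transferP G k hC hσ

/-- **2-factors with at most `k` cycles**: condition (C) and `σ_{k+1} ≥ n`. -/
theorem twoFactor_full {V : Type u} [Fintype V] [DecidableEq V] (G : SimpleGraph V)
    [DecidableRel G.Adj] (k : ℕ)
    (hC : ∀ I : Finset V, G.IsIndepSet (I : Set V) → ∀ v ∈ I, I.card + 1 ≤ G.degree v)
    (hσ : ∀ I : Finset V, G.IsIndepSet (I : Set V) → I.card = k + 1 →
      Fintype.card V ≤ ∑ v ∈ I, G.degree v) :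
    ∃ F : SimpleGraph V, F ≤ G ∧ (∀ v, (F.neighborSet v).ncard = 2) ∧
      Nat.card F.ConnectedComponent ≤ k := by
  have hd : ∀ v, dU G Finset.univ v = G.degree v := by
    intro v
    unfold dU
    rw [← SimpleGraph.card_neighborFinset_eq_degree, SimpleGraph.neighborFinset_eq_filter]
  apply twoFactor_of_cov
  refine cov_full G k ?_ ?_
  · intro I hI v hv
    rw [hd]
    exact hC I hI v hv
  · intro I hI hIk
    have := hσ I hI hIk
    simpa only [hd] using this

end Pool.Agent.H72N
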