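import Pool.Agent.H93L.Parts
import Pool.Agent.H6T.Lab4
import Pool.Agent.H32W.Bridge
import Pool.Agent.H17P.Gam
import Pool.Agent.H62P.MainFin
import Pool.Agent.H40C.One

/-! The 2-connected step of the package: the assembly. -/

set_option autoImplicit false

namespace Pool.Agent.H72N

open List Pool.Agent.TF82 Pool.Agent.TFC Pool.Agent.TFB Pool.Agent.EG31
  Pool.Agent.H18C Pool.Agent.H62P Pool.Agent.H6T.Lab

universe u

set_option linter.unusedSectionVars false
set_option linter.unusedVariables false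

variable {V : Type u} [DecidableEq V]

/-- members in one component -/
theorem inter_comp [Fintype V] {G : SimpleGraph V} {L : List (List V)} {R : Finset V}
    (hR : Reps G L R) {I : V → Finset V} (hI : ∀ y ∈ R, I y ⊆ comp G L y) {y : V} (hy : y ∈ R) :
    R.biUnion I ∩ comp G L y = I y := by
  ext x
  rw [Finset.mem_inter, Finset.mem_biUnion]
  constructor
  · rintro ⟨⟨j, hj, hx⟩, hxy⟩
    by_cases h : j = y
    · rw [← h]; exact hx
    · exact absurd hxy (Finset.disjoint_left.1 (hR.dis j hj y hy h) (hI j hj hx))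
  · intro hx
    exact ⟨⟨y, hy, hx⟩, hI y hy hx⟩

/-- the data of the count -/
theorem ms_of_parts [Fintype V] {G : SimpleGraph V} [DecidableRel G.Adj] {W : Finset V}
    {b f : ℕ} {c : List V} (hM : IsMax G 1 [c]) (h2 : Conn2 G Finset.univ) {R : Finset V}
    (hR : Reps G [c] R) {I : V → Finset V} {bb : V → ℕ}
    (P : H93L.Parts G W b f c R I bb) (hne : (R.biUnion I).Nonempty) :
    H32W.MS G W b [c] (R.biUnion I) := by
  have hb : ∀ y ∈ R, b + (R.biUnion I \ comp G [c] y).card + (W \ comp G [c] y).card = bb y := by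
    intro y hy
    rw [H93L.sdiff_card_biUnion hR P.sub hy, P.bbd y hy]
  have hrep : ∀ x ∈ R.biUnion I, ∃ y ∈ R, x ∈ I y ∧ comp G [c] x = comp G [c] y := by
    intro x hx
    obtain ⟨y, hy, hxy⟩ := Finset.mem_biUnion.1 hx
    exact ⟨y, hy, hxy, comp_eq (P.sub y hy hxy)⟩
  refine ⟨by simpa using hM, rfl, h2, ?_, hR.indep P.sub P.ind, ?_, ?_, ?_, ?_, ?_, ?_⟩
  · intro x hx
    obtain ⟨y, hy, hxy⟩ := Finset.mem_biUnion.1 hx
    exact (mem_comp.1 (P.sub y hy hxy)).1
  · intro x hx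
    obtain ⟨y, hy, hxy, he⟩ := hrep x hx
    rw [he]
    exact P.good hy hxy
  · intro x hx
    obtain ⟨y, hy, hxy, he⟩ := hrep x hx
    rw [he, hb y hy]
    intro J hJ hJi v hv hc
    have hv' := Finset.mem_sdiff.1 (hJ hv)
    exact (P.kb y hy (P.ne_of_mem hy hxy)).sur J hJ hJi v hv ⟨hv'.1, hv'.2, hc⟩
  · intro x hx N hN hnear
    obtain ⟨y, hy, hxy, he⟩ := hrep x hx
    rw [he] at hN hnear ⊢
    rw [inter_comp hR P.sub hy]
    exact (P.pkg y hy (P.ne_of_mem hy hxy)).near N hN hnear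
  · intro x hx
    obtain ⟨y, hy, hxy, he⟩ := hrep x hx
    rw [he, hb y hy, inter_comp hR P.sub hy]
    exact (P.pkg y hy (P.ne_of_mem hy hxy)).p1
  · intro x hx
    obtain ⟨y, hy, hxy, he⟩ := hrep x hx
    rw [he, hb y hy, inter_comp hR P.sub hy]
    exact (P.pkg y hy (P.ne_of_mem hy hxy)).p2
  · obtain ⟨x, hx⟩ := hne
    obtain ⟨y, hy, hxy, he⟩ := hrep x hx
    have hK : comp G [c] y ⊆ unc [c] := fun x hx => (mem_comp.1 hx).1
    have hp := P.pkg y hy (P.ne_of_mem hy hxy)
    have h1 := (H37F.gam_step (b := bb y + 1) (f := (I y).card) hM h2 hK hp (by omega)).1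
    have h3 : ∑ y ∈ R, (I y).card = (I y).card + ∑ j ∈ R.erase y, (I j).card :=
      (Finset.add_sum_erase R (fun y => (I y).card) hy).symm
    have h4 := P.bbd y hy
    have h5 : ((R.biUnion I).image (comp G [c])).card ≤ ∑ y ∈ R, (I y).card := by
      rw [← hR.cardI P.sub]
      exact Finset.card_image_le
    have h6 : (W ∩ ([c] : List (List V)).flatten.toFinset).card ≤ (W \ comp G [c] y).card := by
      refine Finset.card_le_card fun z hz => ?_
      obtain ⟨h7, h8⟩ := Finset.mem_inter.1 hz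
      refine Finset.mem_sdiff.2 ⟨h7, fun h9 => ?_⟩
      exact mem_unc.1 (hK h9) (List.mem_toFinset.1 h8)
    have h7 : ([c] : List (List V)).flatten.length = c.length := by simp
    rw [h7]
    omega

/-- **The 2-connected step.** -/
theorem mainStepP : MainStepP.{u} := by
  intro V _ _ G _ S b f hK hf h2 hIH
  have hpos := hK.pos hf
  by_cases hf1 : f = 1
  · subst hf1
    exact H40C.pkg_one hK h2
  have hf2 : 2 ≤ f := by omega
  obtain ⟨c, hM⟩ := exists_main_cycle hK.cw hK.ne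
  obtain ⟨R, hR⟩ := H62P.exists_reps G [c]
  have hCb : CWb G Finset.univ S b := by
    intro J hJ hJi v hv
    have hv' := Finset.mem_sdiff.1 (hJ hv)
    exact hK.sur J hJ hJi v hv ⟨hv'.1, hv'.2, h2 v hv'.1⟩
  have hlab : H93L.LabP G S b [c] := fun J h1 h3 h4 h5 =>
    lab hCb h2 (by simpa using hM) rfl h1 h3 h4 h5
  obtain ⟨I, bb, P⟩ := H93L.exists_parts hK hf hIH hM hR hlab
  obtain ⟨hlen, hgam⟩ := H17P.gam_glue (W := S) (b := b) (f := f) (bb := bb)
    (S' := fun y => Sp G S [c] (comp G [c] y)) h2 hM hR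
    (fun y hy hne => P.pkg y hy (P.ne_of_mem hy hne.choose_spec)) P.sur P.tot hf2
  have hne : (R.biUnion I).Nonempty := by
    rw [← Finset.card_pos, hR.cardI P.sub]
    have := P.tot
    omega
  obtain ⟨p, hp, hpW, hpJ, hsum⟩ := (ms_of_parts hM h2 hR P hne).exists_p hne
  have hpn : p ∉ R.biUnion I := by
    intro h
    obtain ⟨y, hy, h⟩ := Finset.mem_biUnion.1 h
    exact mem_unc.1 (mem_comp.1 (P.sub y hy h)).1 hp
  refine main_fin hK h2 hM hR P.subW P.ind P.clean P.WS P.sur P.p1 P.p2 hlen hgam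
    (by simpa using hp) hpW (fun y hy v hv => hpJ v (Finset.mem_biUnion.2 ⟨y, hy, hv⟩)) P.tot ?_
  rw [Finset.sum_insert hpn, hR.sum P.sub, ← Finset.card_univ, hR.card_univ hM.fam] at hsum
  have h3 : ∑ y ∈ R, ∑ v ∈ I y, dU G Finset.univ v = ∑ y ∈ R, ∑ v ∈ I y,
      (dU G (comp G [c] y) v + ((att G [c] y).filter (fun w => G.Adj v w)).card) := by
    refine Finset.sum_congr rfl fun y hy => Finset.sum_congr rfl fun v hv => ?_
    exact deg_comp (hR.sub hy) (P.sub y hy hv)
  rw [h3] at hsum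
  simpa using hsum

end Pool.Agent.H72N
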