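import Pool.Agent.H72N.NearG

/-! An optional vertex which is no cut vertex and has a large degree is near only to itself. -/

set_option autoImplicit false

namespace Pool.Agent.H72N

open List Pool.Agent.TF82 Pool.Agent.TFC Pool.Agent.EG31 Pool.Agent.H18C

universe u

set_option linter.unusedSectionVars false
set_option linter.unusedVariables false

variable {V : Type u} [DecidableEq V]

theorem out_of_cut {G : SimpleGraph V} {H C : Finset V} {z : V} (hP : Part G H z C)
    (hzc : ¬ Conn1 G (H.erase z)) : ∃ u₀ ∈ H, u₀ ∉ insert z C := by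
  by_contra hcon
  push Not at hcon
  apply hzc
  intro a ha b hb
  have h1 : H.erase z = C := by
    apply Finset.Subset.antisymm _ hP.sub
    intro y hy
    rw [Finset.mem_erase] at hy
    rcases Finset.mem_insert.1 (hcon y hy.2) with h3 | h3
    · exact absurd h3 hy.1
    · exact h3
  rw [h1] at ha hb ⊢
  exact hP.conn a ha b hb

theorem exists_nb_out {G : SimpleGraph V} [DecidableRel G.Adj] {H S : Finset V} {x : V}
    (hdeg : (S.erase x).card + 2 ≤ dU G H x) : ∃ v ∈ H, v ∉ S ∧ G.Adj x v := by
  by_contra hcon
  push Not at hcon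
  have h1 : (H.filter fun w => G.Adj x w) ⊆ S.erase x := by
    intro y hy
    rw [Finset.mem_filter] at hy
    refine Finset.mem_erase.2 ⟨fun he => G.loopless.irrefl x (he ▸ hy.2), ?_⟩
    by_contra hyS
    exact hcon y hy.1 hyS hy.2
  have h2 := Finset.card_le_card h1
  unfold dU at hdeg
  omega

theorem not_near_noncut_aux {G : SimpleGraph V} [DecidableRel G.Adj] : ∀ (n : ℕ)
    (H S : Finset V) (x x' : V), H.card ≤ n → Conn1 G H → S ⊆ H → x ∈ H → x' ∈ H → x ≠ x' →
    Conn1 G (H.erase x) →
    (∀ J ⊆ H \ S, G.IsIndepSet ((insert x J : Finset V) : Set V) → x ∉ J →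
      J.card + (S.erase x).card + 2 ≤ dU G H x) → ¬ Near G H S x x' := by
  intro n
  induction n with
  | zero =>
    intro H S x x' hn hH hS hx hx' hne hc hdeg
    have : H = ∅ := Finset.card_eq_zero.1 (Nat.le_zero.1 hn)
    rw [this] at hx
    simp at hx
  | succ n ih =>
    intro H S x x' hn hH hS hx hx' hne hc hdeg hnear
    have hd0 : (S.erase x).card + 2 ≤ dU G H x := by
      have := hdeg ∅ (Finset.empty_subset _) (by simp) (by simp)
      simpa using this
    by_cases h2 : Conn2 G H
    · obtain ⟨v, hv, hvS, -⟩ := exists_nb_out hd0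
      exact near_two h2 hv hvS hx hx' hne hnear
    unfold Conn2 at h2
    push Not at h2
    obtain ⟨z, hz, hzc⟩ := h2
    have hxz : x ≠ z := fun he => hzc (he ▸ hc)
    obtain ⟨C, hxC, hP⟩ := exists_part (G := G) hz (Finset.mem_erase.2 ⟨hxz, hx⟩)
    obtain ⟨u₀, hu, hu'⟩ := out_of_cut hP hzc
    have hcard : (insert z C).card ≤ n := by
      have : (insert z C).card < H.card := Finset.card_lt_card ⟨hP.insH, fun hcon => hu' (hcon hu)⟩
      omega
    have hS' : insert z (S ∩ C) ⊆ insert z C := by
      intro y hy
      rcases Finset.mem_insert.1 hy with rfl | hy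
      · exact Finset.mem_insert_self _ _
      · exact Finset.mem_insert_of_mem (Finset.mem_inter.1 hy).2
    have huC : u₀ ∉ C := fun he => hu' (Finset.mem_insert_of_mem he)
    have hux : u₀ ≠ x := fun he => huC (he ▸ hxC)
    have hc' : Conn1 G ((insert z C).erase x) := by
      intro a ha b hb
      rw [Finset.mem_erase] at ha hb
      exact hP.reach_in (hc a (Finset.mem_erase.2 ⟨ha.1, hP.insH ha.2⟩) b
        (Finset.mem_erase.2 ⟨hb.1, hP.insH hb.2⟩)) ha.2 hb.2 ha.1
    have hdeg' : ∀ J ⊆ insert z C \ insert z (S ∩ C),
        G.IsIndepSet ((insert x J : Finset V) : Set V) → x ∉ J →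
        J.card + ((insert z (S ∩ C)).erase x).card + 2 ≤ dU G (insert z C) x := by
      intro J hJ hind hxJ
      rw [hP.dU_eq hxC]
      have hJC : ∀ y ∈ J, y ∈ C ∧ y ∉ S := by
        intro y hy
        have := hJ hy
        rw [Finset.mem_sdiff] at this
        have hyz : y ≠ z := fun he => this.2 (he ▸ Finset.mem_insert_self _ _)
        have hyC : y ∈ C := by
          rcases Finset.mem_insert.1 this.1 with h1 | h1
          · exact absurd h1 hyz
          · exact h1
        exact ⟨hyC, fun hyS => this.2 (Finset.mem_insert_of_mem (Finset.mem_inter.2 ⟨hyS, hyC⟩))⟩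
      have hins : (insert z (S ∩ C)).erase x ⊆ insert z ((S ∩ C).erase x) := by
        intro y hy
        rw [Finset.mem_erase] at hy
        rcases Finset.mem_insert.1 hy.2 with h1 | h1
        · exact h1 ▸ Finset.mem_insert_self _ _
        · exact Finset.mem_insert_of_mem (Finset.mem_erase.2 ⟨hy.1, h1⟩)
      have h5 : ((insert z (S ∩ C)).erase x).card ≤ ((S ∩ C).erase x).card + 1 :=
        (Finset.card_le_card hins).trans (Finset.card_insert_le _ _)
      by_cases huS : u₀ ∈ S
      · have h1 := hdeg J (fun y hy => Finset.mem_sdiff.2 ⟨hP.subH (hJC y hy).1, (hJC y hy).2⟩)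
          hind hxJ
        have h2 : ((S ∩ C).erase x).card < (S.erase x).card := by
          apply Finset.card_lt_card
          refine ⟨Finset.erase_subset_erase _ Finset.inter_subset_left, fun hcon => ?_⟩
          have := hcon (Finset.mem_erase.2 ⟨hux, huS⟩)
          exact huC (Finset.mem_inter.1 (Finset.mem_erase.1 this).2).2
        omega
      · have huJ : u₀ ∉ J := fun he => huC (hJC _ he).1
        have hnadj : ∀ y ∈ C, ¬ G.Adj y u₀ := by
          intro y hy hadj
          rcases hP.cl y hy u₀ hu hadj with h3 | h3
          · exact huC h3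
          · exact hu' (h3 ▸ Finset.mem_insert_self _ _)
        have hinC : ∀ y ∈ (insert x J : Finset V), y ∈ C := by
          intro y hy
          rcases Finset.mem_insert.1 hy with rfl | hy
          · exact hxC
          · exact (hJC y hy).1
        have h1 := hdeg (insert u₀ J) (by
          intro y hy
          rcases Finset.mem_insert.1 hy with rfl | hy
          · exact Finset.mem_sdiff.2 ⟨hu, huS⟩
          · exact Finset.mem_sdiff.2 ⟨hP.subH (hJC y hy).1, (hJC y hy).2⟩) (by
          rw [Finset.insert_comm, Finset.coe_insert]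
          intro a ha c hc hac hadj
          rcases ha with rfl | ha
          · rcases hc with rfl | hc
            · exact hac rfl
            · exact hnadj c (hinC c hc) hadj.symm
          · rcases hc with rfl | hc
            · exact hnadj a (hinC a ha) hadj
            · exact hind ha hc hac hadj) (by
          intro hcon
          rcases Finset.mem_insert.1 hcon with h3 | h3
          · exact hux h3.symm
          · exact hxJ h3)
        rw [Finset.card_insert_of_notMem huJ] at h1
        have h2 : ((S ∩ C).erase x).card ≤ (S.erase x).card :=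
          Finset.card_le_card (Finset.erase_subset_erase _ Finset.inter_subset_left)
        omega
    have key : ∀ y ∈ insert z C, x ≠ y → ¬ Near G (insert z C) (insert z (S ∩ C)) x y :=
      fun y hy hxy => ih (insert z C) (insert z (S ∩ C)) x y hcard (hP.conn_ins hH) hS'
        (Finset.mem_insert_of_mem hxC) hy hxy hc' hdeg'
    by_cases hx'I : x' ∈ insert z C
    · exact key x' hx'I hne (near_in hP hH (Finset.mem_insert_of_mem hxC) hx'I hnear)
    · exact key z (Finset.mem_insert_self _ _) hxz (near_part hP hH hxC hx'
        (fun he => hx'I (Finset.mem_insert_of_mem he)) hnear)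

/-- N4: a vertex `x` (optional or not) which is no cut vertex, with
`|J| + |S - x| + 2 ≤ d(x)` for all independent `J + x`, is near only to itself. -/
theorem not_near_noncut {G : SimpleGraph V} [DecidableRel G.Adj] {H S : Finset V} {x x' : V}
    (hH : Conn1 G H) (hS : S ⊆ H) (hx : x ∈ H) (hx' : x' ∈ H) (hne : x ≠ x')
    (hc : Conn1 G (H.erase x))
    (hdeg : ∀ J ⊆ H \ S, G.IsIndepSet ((insert x J : Finset V) : Set V) → x ∉ J →
      J.card + (S.erase x).card + 2 ≤ dU G H x) : ¬ Near G H S x x' :=
  not_near_noncut_aux H.card H S x x' le_rfl hH hS hx hx' hne hc hdeg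

/-- N3: a good vertex is near only to itself -/
theorem not_near_good {G : SimpleGraph V} [DecidableRel G.Adj] {H S : Finset V} {x x' : V}
    (hH : Conn1 G H) (hS : S ⊆ H) (hC : CWg G H S 0) (hx : Good G H S x) (hx' : x' ∈ H)
    (hne : x ≠ x') : ¬ Near G H S x x' := by
  refine not_near_noncut hH hS hx.mem hx' hne hx.nc ?_
  intro J hJ hind hxJ
  have h1 := hC (insert x J) (by
    intro y hy
    rcases Finset.mem_insert.1 hy with rfl | hy
    · exact Finset.mem_sdiff.2 ⟨hx.mem, hx.nS⟩
    · exact hJ hy) hind x (Finset.mem_insert_self _ _) hx.nc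
  rw [Finset.card_insert_of_notMem hxJ] at h1
  have h2 : (S.erase x).card ≤ S.card := Finset.card_le_card (Finset.erase_subset _ _)
  omega

end Pool.Agent.H72N
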