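import Pool.Agent.H72N.NonCut

/-! Rich and poor hubs of a component `Z` with optional vertices `S0`, hubs `A`. -/

set_option autoImplicit false

namespace Pool.Agent.H72N

open List Pool.Agent.TF82 Pool.Agent.TFC Pool.Agent.EG31 Pool.Agent.H18C

universe u

set_option linter.unusedSectionVars false
set_option linter.unusedVariables false

variable {V : Type u} [DecidableEq V]

/-- (AM): the surplus in a component, hubs included -/
def AMW (G : SimpleGraph V) [DecidableRel G.Adj] (Z S0 A : Finset V) : Prop :=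
  ∀ J ⊆ Z \ S0, G.IsIndepSet (J : Set V) → ∀ v ∈ J,
    J.card + 1 + S0.card + (A.filter (fun w => ¬ G.Adj v w)).card ≤ dU G Z v

/-- `x` is the only neighbour of `u` in `Z` -/
def Pend (G : SimpleGraph V) (Z : Finset V) (u x : V) : Prop :=
  G.Adj u x ∧ ∀ x' ∈ Z, G.Adj u x' → x' = x

/-- the unclean vertices which are no cut vertices of `Z` -/
noncomputable def Xof (G : SimpleGraph V) (Z S0 A : Finset V) : Finset V := by
  classical
  exact Z.filter (fun x => x ∉ S0 ∧ Conn1 G (Z.erase x) ∧ ∃ u ∈ A, Pend G Z u x)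

theorem mem_Xof {G : SimpleGraph V} {Z S0 A : Finset V} {x : V} :
    x ∈ Xof G Z S0 A ↔ x ∈ Z ∧ x ∉ S0 ∧ Conn1 G (Z.erase x) ∧ ∃ u ∈ A, Pend G Z u x := by
  classical
  unfold Xof
  simp only [Finset.mem_filter]

/-- the optional vertices with the unclean vertices -/
noncomputable def SX (G : SimpleGraph V) (Z S0 A : Finset V) : Finset V := S0 ∪ Xof G Z S0 A

theorem SX_sub {G : SimpleGraph V} {Z S0 A : Finset V} (hS : S0 ⊆ Z) : SX G Z S0 A ⊆ Z :=
  Finset.union_subset hS (fun x hx => (mem_Xof.1 hx).1)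

theorem card_SX {G : SimpleGraph V} {Z S0 A : Finset V} :
    (SX G Z S0 A).card = S0.card + (Xof G Z S0 A).card := by
  unfold SX
  refine Finset.card_union_of_disjoint ?_
  rw [Finset.disjoint_left]
  exact fun x hx hx' => (mem_Xof.1 hx').2.1 hx

/-- the unclean vertices other than `v` have hubs which are not adjacent to `v` -/
theorem card_X_erase {G : SimpleGraph V} [DecidableRel G.Adj] {Z S0 A : Finset V} {v : V}
    (hv : v ∈ Z) :
    ((Xof G Z S0 A).erase v).card ≤ (A.filter (fun w => ¬ G.Adj v w)).card := by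
  classical
  have hch : ∀ x ∈ Xof G Z S0 A, ∃ u ∈ A, Pend G Z u x := fun x hx => (mem_Xof.1 hx).2.2.2
  refine Finset.card_le_card_of_injOn
    (fun x => if h : x ∈ Xof G Z S0 A then (hch x h).choose else x) ?_ ?_
  · intro x hx
    rw [Finset.mem_coe, Finset.mem_erase] at hx
    have h1 := (hch x hx.2).choose_spec
    simp only [dif_pos hx.2, Finset.mem_coe, Finset.mem_filter]
    refine ⟨h1.1, fun hadj => hx.1 (h1.2.2 v hv hadj.symm).symm⟩
  · intro x hx x' hx' he
    rw [Finset.mem_coe, Finset.mem_erase] at hx hx'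
    simp only [dif_pos hx.2, dif_pos hx'.2] at he
    have h1 := (hch x hx.2).choose_spec
    have h2 := (hch x' hx'.2).choose_spec
    rw [he] at h1
    exact h2.2.2 x (mem_Xof.1 hx.2).1 h1.2.1

/-- `(Z, SX)` stays in the class -/
theorem AMW.cwb {G : SimpleGraph V} [DecidableRel G.Adj] {Z S0 A : Finset V}
    (h : AMW G Z S0 A) : CWb G Z (SX G Z S0 A) 0 := by
  intro I hI hind v hv
  have h0 := Finset.mem_sdiff.1 (hI hv)
  have h1 := h I (fun y hy => by
    have := Finset.mem_sdiff.1 (hI hy)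
    exact Finset.mem_sdiff.2 ⟨this.1, fun hs => this.2 (Finset.mem_union_left _ hs)⟩) hind v hv
  have h2 := card_X_erase (G := G) (S0 := S0) (A := A) h0.1
  have h3 : v ∉ Xof G Z S0 A := fun hx => h0.2 (Finset.mem_union_right _ hx)
  rw [Finset.erase_eq_of_notMem h3] at h2
  rw [card_SX]
  omega

/-- an unclean vertex which is no cut vertex is near only to itself -/
theorem AMW.not_near_X {G : SimpleGraph V} [DecidableRel G.Adj] {Z S0 A : Finset V}
    (h : AMW G Z S0 A) (hS : S0 ⊆ Z) (hZ : Conn1 G Z) {x x' : V} (hx : x ∈ Xof G Z S0 A)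
    (hx' : x' ∈ Z) (hne : x ≠ x') : ¬ Near G Z (SX G Z S0 A) x x' := by
  obtain ⟨hxZ, hxS, hxc, -⟩ := mem_Xof.1 hx
  refine not_near_noncut hZ (SX_sub hS) hxZ hx' hne hxc ?_
  intro J hJ hind hxJ
  have h1 := h (insert x J) (by
    intro y hy
    rcases Finset.mem_insert.1 hy with rfl | hy
    · exact Finset.mem_sdiff.2 ⟨hxZ, hxS⟩
    · have := Finset.mem_sdiff.1 (hJ hy)
      exact Finset.mem_sdiff.2 ⟨this.1, fun hs => this.2 (Finset.mem_union_left _ hs)⟩)
    hind x (Finset.mem_insert_self _ _)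
  rw [Finset.card_insert_of_notMem hxJ] at h1
  have h2 := card_X_erase (G := G) (S0 := S0) (A := A) hxZ
  have h3 : (SX G Z S0 A).erase x ⊆ S0 ∪ (Xof G Z S0 A).erase x := by
    intro y hy
    rw [Finset.mem_erase] at hy
    rcases Finset.mem_union.1 hy.2 with h4 | h4
    · exact Finset.mem_union_left _ h4
    · exact Finset.mem_union_right _ (Finset.mem_erase.2 ⟨hy.1, h4⟩)
  have h4 := (Finset.card_le_card h3).trans (Finset.card_union_le _ _)
  omega

/-- a hub with two neighbours in different clusters -/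
def Rich (G : SimpleGraph V) (Z S : Finset V) (u : V) : Prop :=
  ∃ x ∈ Z, ∃ x' ∈ Z, G.Adj u x ∧ G.Adj u x' ∧ ¬ Near G Z S x x'

theorem poor_near {G : SimpleGraph V} {Z S : Finset V} {u : V} (h : ¬ Rich G Z S u) {x x' : V}
    (hx : x ∈ Z) (hx' : x' ∈ Z) (h1 : G.Adj u x) (h2 : G.Adj u x') : Near G Z S x x' := by
  by_contra hn
  exact h ⟨x, hx, x', hx', h1, h2, hn⟩

/-- a good vertex sees only rich hubs -/
theorem AMW.rich_of_good {G : SimpleGraph V} [DecidableRel G.Adj] {Z S0 A : Finset V}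
    (h : AMW G Z S0 A) (hS : S0 ⊆ Z) (hZ : Conn1 G Z) {x u : V}
    (hx : Good G Z (SX G Z S0 A) x) (hu : u ∈ A) (hux : G.Adj u x) :
    Rich G Z (SX G Z S0 A) u := by
  by_contra hr
  apply hx.nS
  refine Finset.mem_union_right _ (mem_Xof.2 ⟨hx.mem, fun hs =>
    hx.nS (Finset.mem_union_left _ hs), hx.nc, u, hu, hux, ?_⟩)
  intro x' hx' hux'
  by_contra hne
  exact not_near_good hZ (SX_sub hS) (cwg_of_cwb h.cwb) hx hx' (fun he => hne he.symm)
    (poor_near hr hx.mem hx' hux hux')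

/-- a poor hub sees no good vertex -/
theorem AMW.poor_good {G : SimpleGraph V} [DecidableRel G.Adj] {Z S0 A : Finset V}
    (h : AMW G Z S0 A) (hS : S0 ⊆ Z) (hZ : Conn1 G Z) {u : V} (hu : u ∈ A)
    (hr : ¬ Rich G Z (SX G Z S0 A) u) {x : V} (hx : Good G Z (SX G Z S0 A) x) : ¬ G.Adj u x :=
  fun hux => hr (h.rich_of_good hS hZ hx hu hux)

/-- a link inside `Z` between `u` and `u'` with at least `n` vertices -/
def LinkZ (G : SimpleGraph V) (Z : Finset V) (n : ℕ) (u u' : V) : Prop :=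
  ∃ (Q : List V) (x x' : V), Seg G Q x x' ∧ Q.Nodup ∧ (∀ z ∈ Q, z ∈ Z) ∧ n ≤ Q.length ∧
    G.Adj u x ∧ G.Adj u' x'

theorem LinkZ.symm {G : SimpleGraph V} {Z : Finset V} {n : ℕ} {u u' : V}
    (h : LinkZ G Z n u u') : LinkZ G Z n u' u := by
  obtain ⟨Q, x, x', h1, h2, h3, h4, h5, h6⟩ := h
  exact ⟨Q.reverse, x', x, h1.rev, by simpa using h2, by simpa using h3, by simpa using h4, h6, h5⟩

theorem LinkZ.mono {G : SimpleGraph V} {Z : Finset V} {n m : ℕ} {u u' : V}
    (h : LinkZ G Z n u u') (hm : m ≤ n) : LinkZ G Z m u u' := by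
  obtain ⟨Q, x, x', h1, h2, h3, h4, h5, h6⟩ := h
  exact ⟨Q, x, x', h1, h2, h3, hm.trans h4, h5, h6⟩

/-- a rich hub is linked to every vertex with a neighbour in `Z` -/
theorem rich_link {G : SimpleGraph V} [DecidableRel G.Adj] {Z S : Finset V} {b : ℕ}
    (hZ : Conn1 G Z) (hS : S ⊆ Z) (hC : CWg G Z S b) {u u' y : V} (hu : Rich G Z S u)
    (hy : y ∈ Z) (hu' : G.Adj u' y) : LinkZ G Z (b + 3) u u' := by
  obtain ⟨x, hx, x', hx', h1, h2, h3⟩ := hu
  rcases near_or hZ hy h3 with h4 | h4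
  · obtain ⟨Q, q1, q2, q3, q4⟩ := near_linkg hZ hS hC hx hy (fun hn => h4 (near_symm hn))
    exact ⟨Q, x, y, q1, q2, q3, q4, h1, hu'⟩
  · obtain ⟨Q, q1, q2, q3, q4⟩ := near_linkg hZ hS hC hx' hy (fun hn => h4 (near_symm hn))
    exact ⟨Q, x', y, q1, q2, q3, q4, h2, hu'⟩

/-- two vertices with neighbours in different clusters are linked -/
theorem near_linkZ {G : SimpleGraph V} [DecidableRel G.Adj] {Z S : Finset V} {b : ℕ}
    (hZ : Conn1 G Z) (hS : S ⊆ Z) (hC : CWg G Z S b) {u u' x x' : V}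
    (hx : x ∈ Z) (hx' : x' ∈ Z) (hn : ¬ Near G Z S x x') (hu : G.Adj u x) (hu' : G.Adj u' x') :
    LinkZ G Z (b + 3) u u' := by
  obtain ⟨Q, q1, q2, q3, q4⟩ := near_linkg hZ hS hC hx hx' hn
  exact ⟨Q, x, x', q1, q2, q3, q4, hu, hu'⟩

/-- pendants at different unclean vertices (no cut vertices) are linked -/
theorem AMW.pend_link {G : SimpleGraph V} [DecidableRel G.Adj] {Z S0 A : Finset V} {b : ℕ}
    (h : AMW G Z S0 A) (hS : S0 ⊆ Z) (hZ : Conn1 G Z) (hC : CWg G Z (SX G Z S0 A) b)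
    {t t' x y : V} (hx : x ∈ Xof G Z S0 A) (hy : y ∈ Z) (hne : x ≠ y) (ht : G.Adj t x)
    (ht' : G.Adj t' y) : LinkZ G Z (b + 3) t t' :=
  near_linkZ hZ (SX_sub hS) hC (mem_Xof.1 hx).1 hy (h.not_near_X hS hZ hx hy hne) ht ht'

end Pool.Agent.H72N
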